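import Mathlib
import Pool.Agent.Q47.TA.Glue

/-!
# The modified Derksen invariant of the cylinder over a variety of type B can be larger than
`K[Y] ⊕ ⨁_{i > 0} I uⁱ`
-/

open Polynomial

namespace Pool.Agent.Results.MP_eab3e1_ag.StrictlyLarger

universe u

/-- locally nilpotent derivations -/
def IsLND {K A : Type u} [Field K] [CommRing A] [Algebra K A] (D : Derivation K A A) : Prop :=
  ∀ a : A, ∃ n : ℕ, (⇑D)^[n] a = 0

/-- the modified Derksen invariant: the subalgebra generated by the kernels of the locally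
nilpotent derivations with a slice -/
def HDStar (K A : Type u) [Field K] [CommRing A] [Algebra K A] : Subalgebra K A :=
  Algebra.adjoin K {f : A | ∃ D : Derivation K A A, IsLND D ∧ (∃ s : A, D s = 1) ∧ D f = 0}

/-- `Spec A` is rigid -/
def IsRigid (K A : Type u) [Field K] [CommRing A] [Algebra K A] : Prop :=
  ∀ D : Derivation K A A, IsLND D → D = 0

/-- `Spec A` is of type B -/
def IsTypeB (K A : Type u) [Field K] [CommRing A] [Algebra K A] : Prop :=
  ¬ IsRigid K A ∧ HDStar K A[X] ≠ ⊤

/-- the ideal `I` generated by the images of all locally nilpotent derivations -/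
def imageIdeal (K A : Type u) [Field K] [CommRing A] [Algebra K A] : Ideal A :=
  Ideal.span {g : A | ∃ D : Derivation K A A, IsLND D ∧ ∃ f : A, D f = g}

/-- There is a surface of type B over `K` for which `HD*(Y × 𝔸¹)` is different from
`K[Y] ⊕ ⨁_{i > 0} I uⁱ`. -/
theorem result (K : Type u) [Field K] [CharZero K] :
    ∃ (A : Type u) (_ : CommRing A) (_ : Algebra K A),
      IsDomain A ∧ Algebra.FiniteType K A ∧ IsTypeB K A ∧
      (HDStar K A[X] : Set A[X]) ≠ {F | ∀ i : ℕ, 0 < i → F.coeff i ∈ imageIdeal K A} := by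
  refine ⟨Q47.TA.GS K, inferInstance, inferInstance, inferInstance, inferInstance,
    ⟨?_, Q47.TA.GS_ne_top⟩, ?_⟩
  · intro h
    obtain ⟨D, hD, hne⟩ := Q47.TA.GS_lnd (K := K)
    exact hne (h D hD)
  · intro heq
    obtain ⟨s, hs, hne⟩ := Q47.TA.GS_elt (K := K)
    have h1 : C s * X ∈ (HDStar K (Q47.TA.GS K)[X] : Set (Q47.TA.GS K)[X]) := hs
    rw [heq] at h1
    have h2 := h1 1 one_pos
    rw [coeff_C_mul, coeff_X_one, mul_one] at h2
    have h3 : imageIdeal K (Q47.TA.GS K) ≤
        RingHom.ker ((Pool.Agent.H868R3.ev (Pool.Agent.H868R3.evL (1 : Kˣ)) 0).comp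
          (Q47.TA.GS K).val) := by
      apply Ideal.span_le.2
      rintro g ⟨D, hD, f, rfl⟩
      exact Q47.TA.GS_vanish D hD f
    exact hne (h3 h2)

end Pool.Agent.Results.MP_eab3e1_ag.StrictlyLarger
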